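import Pool.Agent.Q240.EX.Stm2
import Pool.Agent.Y23.Rp

/-! Project EX of helper240: the extremal function is tiny at the zeros. -/

set_option autoImplicit false

open Filter Topology Set
open Pool.Agent.H24R2.JP (XX)

namespace Pool.Agent.Q193.EX

theorem hd_of_top {a : ℝ} {f : ℝ → ℂ} (h : Y23.G.F.Hn a ⊤ f) : Y23.Hd a f := ⟨h.1, h.2.1⟩

theorem top_of_hd {a : ℝ} {f : ℝ → ℂ} (h : Y23.Hd a f) : Y23.G.F.Hn a ⊤ f :=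
  ⟨h.1, h.2, fun _ hk => absurd hk (not_lt.2 le_top)⟩

/-- the sesquilinear form at one zero -/
theorem one_zero (hRH : Q240.EX.RHy) {a : ℝ} (ha : 0 < a) {f G : ℝ → ℂ} (hf : Y23.Hd a f)
    (hG : Y23.Hd a G) (ρ0 : Y23.Zt) (E : ℝ) (h1 : Y23.QQ f ≤ E)
    (hG1 : Y23.TT G ((ρ0 : ℂ) - 1 / 2) = 1) (h2 : Y23.SS G ≤ (Y23.mu ρ0 : ℝ) + E) :
    (Y23.mu ρ0 : ℝ) * ‖Y23.TT f ((ρ0 : ℂ) - 1 / 2)‖ ≤ ‖Y23.QB f G‖ + E := by
  classical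
  have hfD : Y23.Dom f := hf.dom ha
  have hGD : Y23.Dom G := hG.dom ha
  have hrf : ∀ ρ : Y23.Zt, -(starRingEnd ℂ) ((ρ : ℂ) - 1 / 2) = (ρ : ℂ) - 1 / 2 := by
    intro ρ
    apply Complex.ext
    · simp [hRH ρ]
    · simp
  have hGG : ∀ ρ : Y23.Zt, Y23.GG f G ((ρ : ℂ) - 1 / 2) =
      Y23.TT f ((ρ : ℂ) - 1 / 2) * (starRingEnd ℂ) (Y23.TT G ((ρ : ℂ) - 1 / 2)) := by
    intro ρ
    unfold Y23.GG
    rw [hrf]
  obtain ⟨F, hF⟩ : ∃ F : Y23.Zt → ℂ, F = fun ρ : Y23.Zt => (Y23.mu ρ : ℂ) *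
    Y23.GG f G ((ρ : ℂ) - 1 / 2) := ⟨_, rfl⟩
  obtain ⟨g, hg⟩ : ∃ g : Y23.Zt → ℝ, g = fun ρ : Y23.Zt => 1 / 2 * ((Y23.mu ρ : ℝ) *
    ‖Y23.TT f ((ρ : ℂ) - 1 / 2)‖ ^ 2 + (Y23.mu ρ : ℝ) * ‖Y23.TT G ((ρ : ℂ) - 1 / 2)‖ ^ 2) :=
    ⟨_, rfl⟩
  have hFs : Summable F := by
    rw [hF]
    exact Y23.summable_GG hfD hGD
  have hgs : Summable g := by
    rw [hg]
    exact (Summable.add hfD hGD).mul_left (1 / 2)
  have hFg : ∀ ρ, ‖F ρ‖ ≤ g ρ := by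
    intro ρ
    rw [hF, hg]
    beta_reduce
    rw [norm_mul, Complex.norm_natCast, hGG, norm_mul, RCLike.norm_conj]
    have h5 : ‖Y23.TT f ((ρ : ℂ) - 1 / 2)‖ * ‖Y23.TT G ((ρ : ℂ) - 1 / 2)‖ ≤
        1 / 2 * (‖Y23.TT f ((ρ : ℂ) - 1 / 2)‖ ^ 2 + ‖Y23.TT G ((ρ : ℂ) - 1 / 2)‖ ^ 2) := by
      nlinarith [sq_nonneg (‖Y23.TT f ((ρ : ℂ) - 1 / 2)‖ - ‖Y23.TT G ((ρ : ℂ) - 1 / 2)‖)]
    calc _ ≤ _ := mul_le_mul_of_nonneg_left h5 (Nat.cast_nonneg (Y23.mu ρ) : (0 : ℝ) ≤ Y23.mu ρ)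
      _ = _ := by ring
  have hgn : ∀ ρ, 0 ≤ g ρ := fun ρ => (norm_nonneg _).trans (hFg ρ)
  have e1 : Y23.QB f G = F ρ0 + ∑' ρ, if ρ = ρ0 then 0 else F ρ := by
    have h5 : Y23.QB f G = ∑' ρ, F ρ := by rw [hF]; rfl
    rw [h5]
    exact hFs.tsum_eq_add_tsum_ite ρ0
  have e2 : ∑' ρ, g ρ = g ρ0 + ∑' ρ, if ρ = ρ0 then 0 else g ρ :=
    hgs.tsum_eq_add_tsum_ite ρ0
  have e3 : ∑' ρ, g ρ = 1 / 2 * (Y23.SS f + Y23.SS G) := by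
    rw [hg, tsum_mul_left, Summable.tsum_add hfD hGD]
    rfl
  have hsi : Summable (fun ρ => if ρ = ρ0 then 0 else g ρ) := by
    refine Summable.of_nonneg_of_le (fun ρ => ?_) (fun ρ => ?_) hgs
    · split_ifs
      · exact le_rfl
      · exact hgn ρ
    · split_ifs
      · exact hgn ρ
      · exact le_rfl
  have e4 : ‖∑' ρ, if ρ = ρ0 then 0 else F ρ‖ ≤ ∑' ρ, if ρ = ρ0 then 0 else g ρ := by
    refine tsum_of_norm_bounded hsi.hasSum fun ρ => ?_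
    split_ifs
    · simp
    · exact hFg ρ
  have e5 : Y23.SS f ≤ E := by rw [← Y23.QQ_eq_SS hRH]; exact h1
  have e6 : g ρ0 = 1 / 2 * ((Y23.mu ρ0 : ℝ) * ‖Y23.TT f ((ρ0 : ℂ) - 1 / 2)‖ ^ 2 +
      (Y23.mu ρ0 : ℝ)) := by
    rw [hg]
    beta_reduce
    rw [hG1]
    simp
  have e7 : ‖F ρ0‖ = (Y23.mu ρ0 : ℝ) * ‖Y23.TT f ((ρ0 : ℂ) - 1 / 2)‖ := by
    rw [hF]
    beta_reduce
    rw [norm_mul, Complex.norm_natCast, hGG, hG1]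
    simp
  have e8 : 0 ≤ (Y23.mu ρ0 : ℝ) * ‖Y23.TT f ((ρ0 : ℂ) - 1 / 2)‖ ^ 2 := by positivity
  have e9 : F ρ0 = Y23.QB f G - ∑' ρ, if ρ = ρ0 then 0 else F ρ := by rw [e1]; ring
  rw [← e7, e9]
  refine (norm_sub_le _ _).trans ?_
  linarith

theorem rateF (hR : Q240.EX.S_Rate) (hRG : Q240.EX.S_RateG) (hXP : Q240.EX.S_XtP) :
    Q240.EX.S_RateF := by
  intro hRH γ hγ hz c hc
  obtain ⟨c', hc'⟩ : ∃ c', c' = (c + 4 * Real.pi) / 2 := ⟨_, rfl⟩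
  obtain ⟨ε, hε⟩ : ∃ ε, ε = (c' - c) / 2 := ⟨_, rfl⟩
  have hc1 : c < c' := by linarith
  have hc2 : c' < 4 * Real.pi := by linarith
  have hε0 : 0 < ε := by linarith
  have hZ : Y23.IsZ (1 / 2 + Complex.I * γ) := by
    rw [Y23.isZ_iff]
    have : (1 / 2 + Complex.I * γ : ℂ) - 1 / 2 = Complex.I * γ := by ring
    rw [this]
    exact hz
  obtain ⟨ρ0, hρ0⟩ : ∃ ρ0 : Y23.Zt, (ρ0 : ℂ) = 1 / 2 + Complex.I * γ := ⟨⟨_, hZ⟩, rfl⟩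
  have hρ1 : (ρ0 : ℂ) - 1 / 2 = Complex.I * γ := by rw [hρ0]; ring
  have hmu : 1 ≤ Y23.mu (ρ0 : ℂ) := by rw [hρ0]; exact Y23.mu_pos hZ
  have hmu' : (1 : ℝ) ≤ (Y23.mu (ρ0 : ℂ) : ℝ) := by exact_mod_cast hmu
  have hX : Tendsto (fun a : ℝ => (c' - ε - c) * Real.exp (2 * a)) atTop atTop := by
    refine Tendsto.const_mul_atTop (by linarith) ?_
    exact Real.tendsto_exp_atTop.comp (tendsto_id.const_mul_atTop (by norm_num))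
  filter_upwards [hR hRH c' hc2, hRG γ hγ hz c' ε hc2 hε0, hX.eventually_ge_atTop (Real.log 2),
    eventually_gt_atTop 0] with a h1 h2 h3 ha
  intro f hf
  obtain ⟨f0, hf0, hf01, hf02⟩ := h1
  obtain ⟨G, hG, hG1, hG0, hGS⟩ := h2
  obtain ⟨X, hXd⟩ : ∃ X, X = Real.exp (2 * a) := ⟨_, rfl⟩
  rw [← hXd] at hf02 hG0 hGS h3 ⊢
  have hX0 : 0 < X := by rw [hXd]; exact Real.exp_pos _
  have hfd : Y23.Hd a f := hd_of_top hf.1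
  have hQ : Y23.QQ f ≤ Real.exp (-(c' * X)) := (hf.2.2 f0 (top_of_hd hf0) hf01).trans hf02
  obtain ⟨hQ0, -, -, -, -, hort⟩ := hXP hRH a ⊤ f ha hf
  have hQB := hort G (top_of_hd hG)
  have h4 := one_zero hRH ha hfd hG ρ0 (Real.exp (-(c' * X))) hQ (by rw [hρ1]; exact hG1)
    (by rw [hρ0]; exact hGS)
  rw [hρ1] at h4
  have h5 : ‖Y23.QB f G‖ ≤ Real.exp (-((c' - ε) * X)) := by
    rw [hQB, norm_mul, Complex.norm_real, RCLike.norm_conj, Real.norm_of_nonneg hQ0.le]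
    calc Y23.QQ f * ‖Y23.TT G 0‖ ≤ Real.exp (-(c' * X)) * Real.exp (ε * X) :=
          mul_le_mul hQ hG0 (norm_nonneg _) (Real.exp_pos _).le
      _ = Real.exp (-((c' - ε) * X)) := by
          rw [← Real.exp_add]
          congr 1
          ring
  have h6 : Real.exp (-(c' * X)) ≤ Real.exp (-((c' - ε) * X)) := by
    apply Real.exp_le_exp.2
    have : 0 ≤ ε * X := by positivity
    linarith
  have h7 : 2 * Real.exp (-((c' - ε) * X)) ≤ Real.exp (-(c * X)) := by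
    have h8 : (2 : ℝ) = Real.exp (Real.log 2) := (Real.exp_log (by norm_num)).symm
    rw [h8, ← Real.exp_add]
    apply Real.exp_le_exp.2
    linarith
  have h9 : ‖Y23.TT f (Complex.I * γ)‖ ≤
      (Y23.mu (ρ0 : ℂ) : ℝ) * ‖Y23.TT f (Complex.I * γ)‖ :=
    le_mul_of_one_le_left (norm_nonneg _) hmu'
  linarith

end Pool.Agent.Q193.EX
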