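import Pool.Agent.Q240.EX.Stm2

/-! Project EX of helper240: a zero near a tiny value. -/

set_option autoImplicit false

open Filter Topology Set

namespace Pool.Agent.Q193.EX

theorem im_deriv {f : ℂ → ℂ} (hf : Differentiable ℂ f) (hr : ∀ x : ℝ, (f x).im = 0) (x : ℝ) :
    (deriv f x).im = 0 := by
  have h1 : HasDerivAt (fun y : ℝ => f y) (deriv f x) x := (hf x).hasDerivAt.comp_ofReal
  have h2 : HasDerivAt (fun y : ℝ => (f y).im) (deriv f x).im x := by
    have h5 := (Complex.imCLM.hasFDerivAt (x := f x)).comp_hasDerivAt x h1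
    exact h5
  have h3 : (fun y : ℝ => (f y).im) = fun _ => 0 := funext hr
  rw [h3] at h2
  exact h2.unique (hasDerivAt_const x 0)

theorem zD : Q240.EX.S_ZD := by
  intro ι l F G x0 hF hd hre hG hG'
  rcases eq_or_neBot l with hl | hl
  · subst hl
    exact ⟨1, 1, one_pos, one_pos, by simp⟩
  have hU : TendstoLocallyUniformlyOn F G l univ := tendstoLocallyUniformlyOn_univ.2 hF
  have hdU : ∀ᶠ i in l, DifferentiableOn ℂ (F i) univ := hd.mono fun i hi => hi.differentiableOn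
  have hGd : Differentiable ℂ G := differentiableOn_univ.1 (hU.differentiableOn hdU isOpen_univ)
  have hder := tendstoLocallyUniformlyOn_univ.1 (hU.deriv hdU isOpen_univ)
  have hcont : Continuous (deriv G) := (hGd.contDiff (n := 1)).continuous_deriv le_rfl
  obtain ⟨d, hdd⟩ : ∃ d, d = deriv G x0 := ⟨_, rfl⟩
  rw [← hdd] at hG'
  have hdn : 0 < ‖d‖ := norm_pos_iff.2 hG'
  -- `d` is real
  have hdim : d.im = 0 := by
    have h1 : Tendsto (fun i => (deriv (F i) x0).im) l (𝓝 d.im) := by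
      rw [hdd]
      exact (Complex.continuous_im.tendsto _).comp
        ((hU.deriv hdU isOpen_univ).tendsto_at (mem_univ (x0 : ℂ)))
    have h2 : ∀ᶠ i in l, (deriv (F i) x0).im = 0 := by
      filter_upwards [hd, hre] with i h3 h4
      exact im_deriv h3 h4 x0
    have h5 : Tendsto (fun _ : ι => (0 : ℝ)) l (𝓝 d.im) := h1.congr' h2
    exact tendsto_nhds_unique h5 tendsto_const_nhds |>.symm ▸ rfl
  have hdre : d = (d.re : ℂ) := Complex.ext rfl (by simpa using hdim)
  have hdabs : |d.re| = ‖d‖ := by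
    rw [hdre, Complex.norm_real, Complex.ofReal_re, Real.norm_eq_abs]
  have hr0 : d.re ≠ 0 := by
    intro h
    rw [h, abs_zero] at hdabs
    linarith
  -- a neighbourhood
  have hn1 : ∀ᶠ z in 𝓝 (x0 : ℂ), ‖deriv G z - d‖ < ‖d‖ / 4 := by
    have h1 := Metric.tendsto_nhds.1 (hcont.tendsto (x0 : ℂ)) (‖d‖ / 4) (by positivity)
    filter_upwards [h1] with z hz
    rwa [dist_eq_norm, ← hdd] at hz
  obtain ⟨t, ht, ht2⟩ := (Metric.tendstoLocallyUniformly_iff.1 hder) (‖d‖ / 4) (by positivity)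
    (x0 : ℂ)
  obtain ⟨ρ, hρ, hρ2⟩ := Metric.mem_nhds_iff.1 (inter_mem ht hn1)
  have hs : ∃ s : ℝ, (s = 1 ∨ s = -1) ∧ s * d.re = ‖d‖ := by
    rcases le_total 0 d.re with h | h
    · exact ⟨1, Or.inl rfl, by rw [← hdabs, abs_of_nonneg h, one_mul]⟩
    · exact ⟨-1, Or.inr rfl, by rw [← hdabs, abs_of_nonpos h]; ring⟩
  obtain ⟨s, hs1, hs2⟩ := hs
  have hsabs : |s| = 1 := by
    rcases hs1 with h | h <;> simp [h]
  have hs0 : s ≠ 0 := by
    rcases hs1 with h | h <;> simp [h]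
  refine ⟨2 / ‖d‖, ρ / 2 * (‖d‖ / 2), by positivity, by positivity, ?_⟩
  filter_upwards [hd, hre, ht2] with i h1 h2 h3
  intro e he hFe
  have he0 : 0 ≤ e := (norm_nonneg _).trans hFe
  obtain ⟨τ, hτ⟩ : ∃ τ, τ = 2 / ‖d‖ * e := ⟨_, rfl⟩
  have hτ0 : 0 ≤ τ := by rw [hτ]; positivity
  have hτρ : τ ≤ ρ / 2 := by
    rw [hτ]
    calc 2 / ‖d‖ * e ≤ 2 / ‖d‖ * (ρ / 2 * (‖d‖ / 2)) :=
          mul_le_mul_of_nonneg_left he (by positivity)
      _ = ρ / 2 := by field_simp
  have hτe : ‖d‖ / 2 * τ = e := by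
    rw [hτ]
    field_simp
  -- the real function
  obtain ⟨h, hh⟩ : ∃ h : ℝ → ℝ, h = fun x : ℝ => s * (F i (x : ℂ)).re := ⟨_, rfl⟩
  have hhd : ∀ x : ℝ, HasDerivAt h (s * (deriv (F i) x).re) x := by
    intro x
    rw [hh]
    exact ((h1 x).hasDerivAt.real_of_complex).const_mul s
  have hlow : ∀ x : ℝ, |x - x0| ≤ ρ / 2 → ‖d‖ / 2 ≤ deriv h x := by
    intro x hx
    rw [(hhd x).deriv]
    have hmem : (x : ℂ) ∈ Metric.ball (x0 : ℂ) ρ := by
      rw [Metric.mem_ball, dist_eq_norm, ← Complex.ofReal_sub, Complex.norm_real,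
        Real.norm_eq_abs]
      linarith
    have hm := hρ2 hmem
    have h4 : ‖deriv G x - d‖ < ‖d‖ / 4 := hm.2
    have h5 : ‖deriv G x - deriv (F i) x‖ < ‖d‖ / 4 := by
      have := h3 x hm.1
      rwa [dist_eq_norm] at this
    have h6 : ‖deriv (F i) x - d‖ ≤ ‖d‖ / 2 := by
      have h7 : deriv (F i) x - d = (deriv G x - d) - (deriv G x - deriv (F i) x) := by ring
      rw [h7]
      exact (norm_sub_le _ _).trans (by linarith)
    have h8 : |(deriv (F i) x).re - d.re| ≤ ‖d‖ / 2 := by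
      rw [← Complex.sub_re]
      exact (Complex.abs_re_le_norm _).trans h6
    have h9 : |s * (deriv (F i) x).re - ‖d‖| ≤ ‖d‖ / 2 := by
      rw [← hs2, ← mul_sub, abs_mul, hsabs, one_mul, hs2]
      exact h8
    have := (abs_le.1 h9).1
    linarith
  have hcv : Convex ℝ (Icc (x0 - τ) (x0 + τ)) := convex_Icc _ _
  have hcn : ContinuousOn h (Icc (x0 - τ) (x0 + τ)) := fun x _ =>
    (hhd x).continuousAt.continuousWithinAt
  have hmv := hcv.mul_sub_le_image_sub_of_le_deriv hcn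
    (fun x _ => (hhd x).differentiableAt.differentiableWithinAt) (C := ‖d‖ / 2) (by
      intro x hx
      rw [interior_Icc] at hx
      refine hlow x ?_
      rw [abs_le]
      constructor <;> linarith [hx.1, hx.2])
  have hx0 : |h x0| ≤ e := by
    rw [hh]
    beta_reduce
    rw [abs_mul, hsabs, one_mul]
    exact (Complex.abs_re_le_norm _).trans hFe
  have hx1 := abs_le.1 hx0
  have hup : 0 ≤ h (x0 + τ) := by
    have := hmv x0 ⟨by linarith, by linarith⟩ (x0 + τ) ⟨by linarith, le_rfl⟩ (by linarith)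
    rw [add_sub_cancel_left, hτe] at this
    linarith [hx1.1]
  have hdn' : h (x0 - τ) ≤ 0 := by
    have := hmv (x0 - τ) ⟨le_rfl, by linarith⟩ x0 ⟨by linarith, by linarith⟩ (by linarith)
    rw [sub_sub_cancel, hτe] at this
    linarith [hx1.2]
  obtain ⟨x, hx, hx2⟩ := intermediate_value_Icc (by linarith : x0 - τ ≤ x0 + τ) hcn
    (show (0 : ℝ) ∈ Icc (h (x0 - τ)) (h (x0 + τ)) from ⟨hdn', hup⟩)
  refine ⟨x, ?_, ?_⟩
  · rw [← hτ, abs_le]
    constructor <;> linarith [hx.1, hx.2]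
  · rw [hh] at hx2
    beta_reduce at hx2
    have h4 : (F i x).re = 0 := by
      rcases mul_eq_zero.1 hx2 with h5 | h5
      · exact absurd h5 hs0
      · exact h5
    exact Complex.ext h4 (h2 x)

end Pool.Agent.Q193.EX
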